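import Pool.Agent.H30.Diam.Stubs2
import Pool.Agent.H92.Diam.Exact

set_option autoImplicit false

/-!
# DIAM-24: the exact step for the exceptional configuration of the odd case
-/

namespace Pool.Agent.H13.Diam

open Finset Pool.Agent.H30.Diam
open Pool.Agent.H92.Diam (cl mem_cl card_symmDiff_sub card_symmDiff_split card_trace
  card_symmDiff_disj card_symmDiff_mod card_image_cl U_nonneg kk)

/-- the thin classes: `k` elements in `J`, `a` elements outside -/
def Thin (d k a : ℕ) : Prop :=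
  (k = 0 ∧ d ≤ a) ∨ (k = 1 ∧ d + 1 ≤ a) ∨ (k = 2 ∧ d ≤ a) ∨ (k = 3 ∧ d ≤ a + 1) ∨ (k = 4 ∧ d ≤ a)

lemma num (d a e k T1 T2 T3 T4 T5 : ℕ) (he : e ≤ 1) (hk : k ≤ 3)
    (hpar : (e + k + a) % 2 = d % 2)
    (h1 : e = 1 → k = 0 → a + 1 = d → 1 ≤ T1) (h2 : e = 0 → k = 1 → a + 1 = d → 1 ≤ T2)
    (h3 : e = 1 → k = 1 → a + 2 = d → 1 ≤ T3) (h4 : e = 1 → k = 3 → a + 2 = d → 1 ≤ T4)
    (h5 : Thin d (e + k) a → 1 ≤ T5) :
    3 * (if d < e + k + a then 1 else 0) + (k * (if d < e + a + (4 - k) then 1 else 0) +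
      (3 - k) * (if d < e + a + (2 - k) then 1 else 0)) ≤
      3 * T1 + T2 + T3 + 3 * T4 + 6 * T5 := by
  unfold Thin at h5
  interval_cases e <;> interval_cases k <;>
    simp only [Nat.reduceAdd, Nat.reduceSub, zero_add, true_and, zero_mul,
      forall_true_left, add_zero, one_mul, OfNat.zero_ne_ofNat, OfNat.one_ne_ofNat,
      zero_ne_one, one_ne_zero, IsEmpty.forall_iff, false_and, or_false, false_or,
      OfNat.ofNat_ne_zero, OfNat.ofNat_ne_one, Nat.reduceEqDiff] at * <;>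
    split_ifs <;> omega

section pw

variable {V : Type} [DecidableEq V]

lemma card_symmDiff_inter (F G : Finset V) :
    (symmDiff F G).card + 2 * (F ∩ G).card = F.card + G.card := by
  have h2 : (symmDiff F G).card = (F \ G).card + (G \ F).card := by
    rw [symmDiff_def, sup_eq_union, card_union_of_disjoint disjoint_sdiff_sdiff]
  have h3 := card_inter_add_card_sdiff F G
  have h4 := card_inter_add_card_sdiff G F
  rw [inter_comm] at h4
  omega

open Classical in
/-- pointwise bound of the weight -/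
lemma pointwise {D : Finset V} {x : V} (hD : D.card = 3) (hx : x ∉ D) {d : ℕ}
    {F : Finset V} (hF : F.card % 2 = d % 2) :
    3 * (if d < (symmDiff F ∅).card then 1 else 0) +
        ∑ z ∈ D, (if d < (symmDiff F (D.erase z)).card then 1 else 0) ≤
      3 * (if F ∩ insert x D = {x} ∧ (F \ insert x D).card = d - 1 then 1 else 0) +
      ∑ z ∈ D, (if F ∩ insert x D = {z} ∧ (F \ insert x D).card = d - 1 then 1 else 0) +
      ∑ z ∈ D, (if F ∩ insert x D = {x, z} ∧ (F \ insert x D).card + 2 = d then 1 else 0) +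
      3 * (if F ∩ insert x D = insert x D ∧ (F \ insert x D).card + 2 = d then 1 else 0) +
      6 * (if Thin d (F ∩ insert x D).card (F \ insert x D).card then 1 else 0) := by
  set a := (F \ insert x D).card with ha
  set k := (F ∩ D).card with hk
  set e := if x ∈ F then 1 else 0 with he
  have he1 : e ≤ 1 := by rw [he]; split_ifs <;> simp
  have hk3 : k ≤ 3 := by rw [hk, ← hD]; exact card_le_card inter_subset_right
  -- the trace on `J`
  have hJ : F ∩ insert x D = if x ∈ F then insert x (F ∩ D) else F ∩ D := by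
    split_ifs with h
    · rw [inter_insert_of_mem h]
    · rw [inter_insert_of_notMem h]
  have hJc : (F ∩ insert x D).card = e + k := by
    rw [hJ, he]
    split_ifs with h
    · rw [card_insert_of_notMem (by simp [hx]), add_comm]
    · rw [zero_add]
  have hFD : (F \ D).card = e + a := by
    have h1 : F \ D = (if x ∈ F then insert x (F \ insert x D) else F \ insert x D) := by
      split_ifs with h
      · ext v
        simp only [mem_sdiff, mem_insert]
        by_cases hv : v = x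
        · subst hv; tauto
        · tauto
      · ext v
        simp only [mem_sdiff, mem_insert]
        by_cases hv : v = x
        · subst hv; tauto
        · tauto
    rw [h1, he]
    split_ifs with h
    · rw [card_insert_of_notMem (by simp), add_comm]
    · rw [zero_add]
  have hFc : F.card = e + k + a := by
    rw [card_trace (insert x D) F, hJc]
  have h0 : (symmDiff F ∅).card = e + k + a := by
    rw [← bot_eq_empty, symmDiff_bot, hFc]
  have hz : ∀ z ∈ D, (symmDiff F (D.erase z)).card =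
      if z ∈ F then e + a + (4 - k) else e + a + (2 - k) := by
    intro z hz
    rw [card_symmDiff_sub (erase_subset z D), hFD]
    have h1 := card_symmDiff_inter (F ∩ D) (D.erase z)
    rw [card_erase_of_mem hz, hD] at h1
    have h2 : (F ∩ D) ∩ D.erase z = (F ∩ D).erase z := by
      ext v
      simp only [mem_inter, mem_erase]
      tauto
    rw [h2] at h1
    split_ifs with h
    · rw [card_erase_of_mem (mem_inter.2 ⟨h, hz⟩)] at h1
      have h3 : 0 < (F ∩ D).card := card_pos.2 ⟨z, mem_inter.2 ⟨h, hz⟩⟩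
      omega
    · rw [erase_eq_of_notMem (fun hh => h (mem_inter.1 hh).1)] at h1
      omega
  have hsum : ∑ z ∈ D, (if d < (symmDiff F (D.erase z)).card then 1 else 0) =
      k * (if d < e + a + (4 - k) then 1 else 0) +
      (3 - k) * (if d < e + a + (2 - k) then 1 else 0) := by
    have h1 : ∀ z ∈ D, (if d < (symmDiff F (D.erase z)).card then 1 else 0) =
        if z ∈ F then (if d < e + a + (4 - k) then 1 else 0) else
          (if d < e + a + (2 - k) then 1 else 0) := by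
      intro z hz'
      rw [hz z hz']
      by_cases h : z ∈ F
      · rw [if_pos h, if_pos h]
      · rw [if_neg h, if_neg h]
    rw [sum_congr rfl h1, sum_ite, sum_const, sum_const, smul_eq_mul, smul_eq_mul]
    have h2 : (D.filter (fun z => z ∈ F)).card = k := by
      rw [hk]; congr 1; ext v; simp only [mem_filter, mem_inter]; tauto
    have h3 : (D.filter (fun z => z ∉ F)).card = 3 - k := by
      have := card_filter_add_card_filter_not (s := D) (fun z => z ∈ F)
      omega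
    rw [h2, h3]
  rw [hsum, h0]
  refine num d a e k _ _ _ _ _ he1 hk3 (by rw [← hFc]; exact hF) ?_ ?_ ?_ ?_ ?_
  · intro h1 h2 h3
    have hxF : x ∈ F := by by_contra h; rw [he, if_neg h] at h1; exact zero_ne_one h1
    rw [if_pos]
    refine ⟨?_, by omega⟩
    have h4 : F ∩ D = ∅ := card_eq_zero.1 (hk ▸ h2)
    rw [hJ, if_pos hxF, h4]
    rfl
  · intro h1 h2 h3
    have hxF : x ∉ F := by intro h; rw [he, if_pos h] at h1; exact one_ne_zero h1
    obtain ⟨z, hzz⟩ := card_eq_one.1 (hk ▸ h2)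
    have hzD : z ∈ D := by
      have : z ∈ F ∩ D := by rw [hzz]; exact mem_singleton_self z
      exact (mem_inter.1 this).2
    refine le_trans ?_ (single_le_sum (fun _ _ => Nat.zero_le _) hzD)
    rw [if_pos]
    refine ⟨?_, by omega⟩
    rw [hJ, if_neg hxF, hzz]
  · intro h1 h2 h3
    have hxF : x ∈ F := by by_contra h; rw [he, if_neg h] at h1; exact zero_ne_one h1
    obtain ⟨z, hzz⟩ := card_eq_one.1 (hk ▸ h2)
    have hzD : z ∈ D := by
      have : z ∈ F ∩ D := by rw [hzz]; exact mem_singleton_self z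
      exact (mem_inter.1 this).2
    refine le_trans ?_ (single_le_sum (fun _ _ => Nat.zero_le _) hzD)
    rw [if_pos]
    refine ⟨?_, by omega⟩
    rw [hJ, if_pos hxF, hzz]
  · intro h1 h2 h3
    have hxF : x ∈ F := by by_contra h; rw [he, if_neg h] at h1; exact zero_ne_one h1
    rw [if_pos]
    refine ⟨?_, by omega⟩
    have : F ∩ D = D := eq_of_subset_of_card_le inter_subset_right (by rw [hD]; omega)
    rw [hJ, if_pos hxF, this]
  · intro h
    rw [if_pos]
    rw [hJc]; exact h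

end pw

section main

variable {V : Type} [Fintype V] [DecidableEq V] {J : Finset V} {𝓔 𝓔' : Finset (Finset V)} {d : ℕ}

lemma card_R (hJ : J.card = 4) : (univ \ J).card = Fintype.card V - 4 := by
  rw [card_sdiff_of_subset (subset_univ _), card_univ, hJ]

lemma card_cl_le (hJ : J.card = 4) (t : Finset V) (a : ℕ) :
    (cl 𝓔 J t a).card ≤ (Fintype.card V - 4).choose a := by
  rw [← card_image_cl, ← card_R hJ, ← card_powersetCard]
  refine card_le_card fun F' hF' => ?_
  obtain ⟨F, hF, rfl⟩ := mem_image.1 hF'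
  exact mem_powersetCard.2 ⟨sdiff_subset_sdiff (subset_univ _) (Subset.refl _), (mem_cl.1 hF).2.2⟩

lemma kk_gen (hJ : J.card = 4) (hd : 1 ≤ d) (hm : 2 ^ 20 * d ≤ Fintype.card V)
    {t p : Finset V} {a c : ℕ} (hda : d ≤ a + 1) (hc : d + 2 < c + a)
    (hdist : ∀ G ∈ cl 𝓔 J t a, ∀ F ∈ cl 𝓔' J p (d - 1),
      c + (symmDiff (G \ J) (F \ J)).card ≤ 2 * d + 1)
    (hne : (cl 𝓔' J p (d - 1)).Nonempty) (hne' : (cl 𝓔 J t a).Nonempty)
    (hsm : 2 ^ 12 * 8 ^ (a + 1 - d) * (cl 𝓔 J t a).card ≤ (Fintype.card V - 4).choose (d - 1)) :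
    2 ^ (a + 1 - d + 8) * (cl 𝓔 J t a).card + (cl 𝓔' J p (d - 1)).card ≤
      (Fintype.card V - 4).choose (d - 1) := by
  have ha : a ≤ 3 * d := by
    obtain ⟨F, hF⟩ := hne
    obtain ⟨G, hG⟩ := hne'
    have h1 := hdist G hG F hF
    have h2 : (G \ J).card ≤ (symmDiff (G \ J) (F \ J)).card + (F \ J).card := by
      refine le_trans (card_le_card ?_) (card_union_le _ _)
      intro v hv
      rw [mem_union, mem_symmDiff]
      tauto
    rw [(mem_cl.1 hG).2.2, (mem_cl.1 hF).2.2] at h2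
    omega
  have h3 := kk V (univ \ J) a (d - 1) (a + 1 - d) ((cl 𝓔 J t a).image (fun F => F \ J))
    ((cl 𝓔' J p (d - 1)).image (fun F => F \ J)) (by omega) (by rw [card_R hJ]; omega)
    (by
      intro G' hG'
      obtain ⟨G, hG, rfl⟩ := mem_image.1 hG'
      exact ⟨sdiff_subset_sdiff (subset_univ _) (Subset.refl _), (mem_cl.1 hG).2.2⟩)
    (by
      intro G' hG'
      obtain ⟨G, hG, rfl⟩ := mem_image.1 hG'
      exact ⟨sdiff_subset_sdiff (subset_univ _) (Subset.refl _), (mem_cl.1 hG).2.2⟩)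
    (by
      intro G' hG' F' hF' hdis
      obtain ⟨G, hG, rfl⟩ := mem_image.1 hG'
      obtain ⟨F, hF, rfl⟩ := mem_image.1 hF'
      have h4 := hdist G hG F hF
      rw [card_symmDiff_disj hdis, (mem_cl.1 hG).2.2, (mem_cl.1 hF).2.2] at h4
      omega)
    (by rw [card_image_cl, card_R hJ]; exact hsm)
  rw [card_image_cl, card_image_cl, card_R hJ] at h3
  exact h3

/-- the unit of the main classes -/
noncomputable def C4 (V : Type) [Fintype V] (d : ℕ) : ℝ := ((Fintype.card V - 4).choose (d - 1) : ℕ)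

omit [DecidableEq V] in
lemma U_le (hd : 1 ≤ d) (hm : 2 ^ 20 * d ≤ Fintype.card V) :
    U d (Fintype.card V) ≤ 2 * C4 V d := by
  unfold U C4
  obtain ⟨e, rfl⟩ : ∃ e, d = e + 1 := ⟨d - 1, by omega⟩
  obtain ⟨n, hn⟩ : ∃ n, Fintype.card V = n + 4 := ⟨Fintype.card V - 4, by omega⟩
  rw [hn, show n + 4 - 3 = n + 1 by omega, show n + 4 - 4 = n by omega,
    show e + 1 - 1 = e by omega]
  have h1 : (n + 1).choose e * (n + 1 - e) = n.choose e * (n + 1) := by
    have := Nat.choose_mul_succ_eq n e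
    rw [this]
  have h2 : n + 1 ≤ 2 * (n + 1 - e) := by omega
  have h3 : (n + 1).choose e * (n + 1 - e) ≤ 2 * n.choose e * (n + 1 - e) := by
    rw [h1]
    calc n.choose e * (n + 1) ≤ n.choose e * (2 * (n + 1 - e)) := Nat.mul_le_mul_left _ h2
      _ = 2 * n.choose e * (n + 1 - e) := by ring
  have h4 : (n + 1).choose e ≤ 2 * n.choose e := Nat.le_of_mul_le_mul_right h3 (by omega)
  exact_mod_cast h4

lemma small (hJ : J.card = 4) (hd : 1 ≤ d) (hm : 2 ^ 20 * d ≤ Fintype.card V)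
    (hE : Fam d 𝓔) (hG : Good d 𝓔 1)
    (h1 : ((lev 𝓔 (d + 2)).card : ℝ) ≤ del * U d (Fintype.card V))
    (h0 : (((lev 𝓔 d).filter (fun F => Disjoint F J)).card : ℝ) ≤ tau * U d (Fintype.card V))
    {t : Finset V} {a : ℕ} (ht : t ⊆ J) (hb : Thin d t.card a) :
    (2 : ℝ) ^ 12 * 8 ^ (a + 1 - d) * (cl 𝓔 J t a).card ≤ C4 V d := by
  have hU := U_nonneg d (Fintype.card V)
  have hU2 := U_le hd hm
  suffices hh : (2 : ℝ) ^ 12 * 8 ^ (a + 1 - d) * (cl 𝓔 J t a).card ≤
      1 / 2 * U d (Fintype.card V) by linarith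
  rcases (cl 𝓔 J t a).eq_empty_or_nonempty with he | ⟨F₀, hF₀⟩
  · rw [he, card_empty, Nat.cast_zero, mul_zero]
    linarith
  have htc := card_le_card ht
  rw [hJ] at htc
  have hsize : ∀ F ∈ cl 𝓔 J t a, F.card = t.card + a := by
    intro F hF
    rw [card_trace J F, (mem_cl.1 hF).2.1, (mem_cl.1 hF).2.2]
  have hpar := hE.par F₀ (mem_cl.1 hF₀).1
  rw [hsize F₀ hF₀] at hpar
  have hda : d ≤ t.card + a := by
    unfold Thin at hb; omega
  obtain ⟨i, hi⟩ : ∃ i, t.card + a = d + 2 * i := ⟨(t.card + a - d) / 2, by omega⟩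
  have hs : a + 1 - d ≤ 2 * i + 1 := by omega
  have h8 : (8 : ℝ) ^ (a + 1 - d) ≤ 8 ^ (2 * i + 1) := pow_le_pow_right₀ (by norm_num) hs
  rcases Nat.lt_or_ge 1 i with hi1 | hi1
  · -- high levels
    have h2 : ((cl 𝓔 J t a).card : ℝ) ≤ eps i * U d (Fintype.card V) := by
      refine le_trans ?_ (hG i hi1)
      exact_mod_cast card_le_card fun F hF => by
        rw [lev, mem_filter]
        exact ⟨(mem_cl.1 hF).1, (hsize F hF).trans hi⟩
    have h3 : (2 : ℝ) ^ 12 * 8 ^ (2 * i + 1) * eps i ≤ 1 / 2 := by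
      unfold eps
      have h4 : (8 : ℝ) ^ (2 * i + 1) = 8 * 64 ^ i := by
        rw [pow_succ, pow_mul]
        norm_num
        ring
      have h5 : (64 : ℝ) ^ i * (1 / 4096) ^ i = (1 / 64) ^ i := by
        rw [← mul_pow]
        norm_num
      have h6 : ((1 : ℝ) / 64) ^ i ≤ (1 / 64) ^ 2 :=
        pow_le_pow_of_le_one (by norm_num) (by norm_num) hi1
      calc (2 : ℝ) ^ 12 * 8 ^ (2 * i + 1) * (1 / 2 ^ 9 * (1 / 4096) ^ i) =
          64 * (64 ^ i * (1 / 4096) ^ i) := by rw [h4]; ring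
        _ ≤ 64 * (1 / 64) ^ 2 := by rw [h5]; linarith
        _ ≤ 1 / 2 := by norm_num
    calc (2 : ℝ) ^ 12 * 8 ^ (a + 1 - d) * (cl 𝓔 J t a).card ≤
        2 ^ 12 * 8 ^ (2 * i + 1) * (eps i * U d (Fintype.card V)) := by gcongr
      _ = (2 ^ 12 * 8 ^ (2 * i + 1) * eps i) * U d (Fintype.card V) := by ring
      _ ≤ 1 / 2 * U d (Fintype.card V) := mul_le_mul_of_nonneg_right h3 hU
  · have hi2 : i = 0 ∨ i = 1 := by omega
    rcases hi2 with rfl | rfl
    · -- level `d`
      have ht0 : t = ∅ := by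
        rw [← card_eq_zero]
        unfold Thin at hb
        omega
      have h2 : ((cl 𝓔 J t a).card : ℝ) ≤ tau * U d (Fintype.card V) := by
        refine le_trans ?_ h0
        exact_mod_cast card_le_card fun F hF => by
          rw [mem_filter, lev, mem_filter]
          refine ⟨⟨(mem_cl.1 hF).1, (hsize F hF).trans hi⟩, ?_⟩
          rw [disjoint_iff_inter_eq_empty, (mem_cl.1 hF).2.1, ht0]
      calc (2 : ℝ) ^ 12 * 8 ^ (a + 1 - d) * (cl 𝓔 J t a).card ≤
          2 ^ 12 * 8 ^ (2 * 0 + 1) * (tau * U d (Fintype.card V)) := by gcongr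
        _ = (2 ^ 12 * 8 ^ (2 * 0 + 1) * tau) * U d (Fintype.card V) := by ring
        _ ≤ 1 / 2 * U d (Fintype.card V) := by
          refine mul_le_mul_of_nonneg_right ?_ hU
          unfold tau
          norm_num
    · -- level `d + 2`
      have h2 : ((cl 𝓔 J t a).card : ℝ) ≤ del * U d (Fintype.card V) := by
        refine le_trans ?_ h1
        exact_mod_cast card_le_card fun F hF => by
          rw [lev, mem_filter]
          exact ⟨(mem_cl.1 hF).1, (hsize F hF).trans hi⟩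
      calc (2 : ℝ) ^ 12 * 8 ^ (a + 1 - d) * (cl 𝓔 J t a).card ≤
          2 ^ 12 * 8 ^ (2 * 1 + 1) * (del * U d (Fintype.card V)) := by gcongr
        _ = (2 ^ 12 * 8 ^ (2 * 1 + 1) * del) * U d (Fintype.card V) := by ring
        _ ≤ 1 / 2 * U d (Fintype.card V) := by
          refine mul_le_mul_of_nonneg_right ?_ hU
          unfold del
          norm_num

/-- the weighted loss -/
noncomputable def loss (𝓔 : Finset (Finset V)) (J D : Finset V) (x : V) (d : ℕ) : ℝ :=
  3 * (C4 V d - (cl 𝓔 J {x} (d - 1)).card) + ∑ z ∈ D, (C4 V d - (cl 𝓔 J {z} (d - 1)).card)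

lemma cl_le_C4 (hJ : J.card = 4) (t : Finset V) : ((cl 𝓔 J t (d - 1)).card : ℝ) ≤ C4 V d := by
  unfold C4
  exact_mod_cast card_cl_le hJ t (d - 1)

lemma loss_nonneg (hJ : J.card = 4) (D : Finset V) (x : V) : 0 ≤ loss 𝓔 J D x d := by
  unfold loss
  have h1 := cl_le_C4 (𝓔 := 𝓔) (d := d) hJ {x}
  have h2 : 0 ≤ ∑ z ∈ D, (C4 V d - ((cl 𝓔 J {z} (d - 1)).card : ℝ)) :=
    sum_nonneg fun z _ => sub_nonneg.2 (cl_le_C4 hJ {z})
  linarith

lemma le_loss (hJ : J.card = 4) {D : Finset V} {x v : V} (hv : v ∈ insert x D) :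
    C4 V d - (cl 𝓔 J {v} (d - 1)).card ≤ loss 𝓔 J D x d := by
  unfold loss
  have h1 := cl_le_C4 (𝓔 := 𝓔) (d := d) hJ {x}
  have h2 : 0 ≤ ∑ z ∈ D, (C4 V d - ((cl 𝓔 J {z} (d - 1)).card : ℝ)) :=
    sum_nonneg fun z _ => sub_nonneg.2 (cl_le_C4 hJ {z})
  rcases mem_insert.1 hv with rfl | hv
  · linarith
  · have h3 := single_le_sum (f := fun z => C4 V d - ((cl 𝓔 J {z} (d - 1)).card : ℝ))
      (fun z _ => sub_nonneg.2 (cl_le_C4 hJ {z})) hv
    linarith

/-- from `S_kk` to the loss -/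
lemma class_gen (hJ : J.card = 4) (hd : 1 ≤ d) (hm : 2 ^ 20 * d ≤ Fintype.card V)
    {t : Finset V} {v x : V} {D : Finset V} {a c : ℕ} (hv : v ∈ insert x D) (hda : d ≤ a + 1)
    (hc : d + 2 < c + a)
    (hdist : ∀ G ∈ cl 𝓔 J t a, ∀ F ∈ cl 𝓔' J {v} (d - 1),
      c + (symmDiff (G \ J) (F \ J)).card ≤ 2 * d + 1)
    (hsm : (2 : ℝ) ^ 12 * 8 ^ (a + 1 - d) * (cl 𝓔 J t a).card ≤ C4 V d) :
    ((cl 𝓔 J t a).card : ℝ) ≤ (1 / 2) ^ (a + 1 - d + 8) * loss 𝓔' J D x d := by
  suffices h : (2 : ℝ) ^ (a + 1 - d + 8) * (cl 𝓔 J t a).card ≤ loss 𝓔' J D x d by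
    have h2 : ((1 : ℝ) / 2) ^ (a + 1 - d + 8) * 2 ^ (a + 1 - d + 8) = 1 := by
      rw [← mul_pow]
      norm_num
    calc ((cl 𝓔 J t a).card : ℝ) =
        (1 / 2) ^ (a + 1 - d + 8) * (2 ^ (a + 1 - d + 8) * (cl 𝓔 J t a).card) := by
          rw [← mul_assoc, h2, one_mul]
      _ ≤ (1 / 2) ^ (a + 1 - d + 8) * loss 𝓔' J D x d := by gcongr
  rcases (cl 𝓔 J t a).eq_empty_or_nonempty with he | hne'
  · rw [he, card_empty, Nat.cast_zero, mul_zero]
    exact loss_nonneg hJ D x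
  rcases (cl 𝓔' J {v} (d - 1)).eq_empty_or_nonempty with he | hne
  · have h2 := le_loss (𝓔 := 𝓔') (d := d) hJ hv
    rw [he, card_empty, Nat.cast_zero, sub_zero] at h2
    refine le_trans ?_ (hsm.trans h2)
    refine mul_le_mul_of_nonneg_right ?_ (Nat.cast_nonneg _)
    rw [pow_add]
    have h3 : (2 : ℝ) ^ (a + 1 - d) ≤ 8 ^ (a + 1 - d) := by gcongr; norm_num
    have h4 : (0 : ℝ) ≤ 8 ^ (a + 1 - d) := by positivity
    linarith
  · have hsm' : 2 ^ 12 * 8 ^ (a + 1 - d) * (cl 𝓔 J t a).card ≤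
        (Fintype.card V - 4).choose (d - 1) := by
      unfold C4 at hsm
      exact_mod_cast hsm
    have h2 := kk_gen hJ hd hm hda hc hdist hne hne' hsm'
    refine le_trans ?_ (le_loss (𝓔 := 𝓔') (d := d) hJ hv)
    rw [le_sub_iff_add_le]
    unfold C4
    exact_mod_cast h2

lemma geom (d n : ℕ) (hd : 1 ≤ d) :
    ∑ a ∈ Ico (d - 1) n, ((1 : ℝ) / 2) ^ (a + 1 - d + 8) ≤ 1 / 128 := by
  rw [sum_Ico_eq_sum_range]
  have h1 : ∀ k ∈ range (n - (d - 1)), ((1 : ℝ) / 2) ^ (d - 1 + k + 1 - d + 8) =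
      1 / 256 * (1 / 2) ^ k := by
    intro k _
    rw [show d - 1 + k + 1 - d + 8 = k + 8 by omega, pow_add]
    norm_num
    ring
  rw [sum_congr rfl h1, ← mul_sum, geom_sum_eq (by norm_num)]
  have h2 : (0 : ℝ) ≤ (1 / 2) ^ (n - (d - 1)) := by positivity
  have h3 : (((1 : ℝ) / 2) ^ (n - (d - 1)) - 1) / (1 / 2 - 1) =
      2 * (1 - (1 / 2) ^ (n - (d - 1))) := by ring
  rw [h3]
  linarith

lemma class_same (hJ : J.card = 4) (hd : 1 ≤ d) (hm : 2 ^ 20 * d ≤ Fintype.card V)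
    {D : Finset V} {x : V} (hJD : J = insert x D) (hE : Fam d 𝓔)
    {t : Finset V} {a : ℕ} (ht : t ⊆ J) (hne : t ≠ ∅) (hb : Thin d t.card a)
    (hsm : (2 : ℝ) ^ 12 * 8 ^ (a + 1 - d) * (cl 𝓔 J t a).card ≤ C4 V d) :
    ((cl 𝓔 J t a).card : ℝ) ≤ (1 / 2) ^ (a + 1 - d + 8) * loss 𝓔 J D x d := by
  have htp : 0 < t.card := card_pos.2 (nonempty_iff_ne_empty.2 hne)
  have htc := card_le_card ht
  rw [hJ] at htc
  obtain ⟨v, hv, hvc⟩ : ∃ v ∈ J, d + 1 < (symmDiff t {v}).card + a := by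
    by_cases h : t = J
    · obtain ⟨v, hv⟩ := nonempty_iff_ne_empty.2 hne
      refine ⟨v, ht hv, ?_⟩
      have h1 := card_symmDiff_inter t {v}
      rw [inter_singleton_of_mem hv, card_singleton, h, hJ] at h1
      rw [h] at hb ⊢
      rw [hJ] at hb
      unfold Thin at hb
      omega
    · obtain ⟨v, hv, hv'⟩ := exists_of_ssubset (Finset.ssubset_iff_subset_ne.2 ⟨ht, h⟩)
      refine ⟨v, hv, ?_⟩
      have h1 := card_symmDiff_inter t {v}
      rw [inter_singleton_of_notMem hv', card_singleton, card_empty] at h1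
      have h2 : t.card < 4 := by
        rw [← hJ]; exact card_lt_card (Finset.ssubset_iff_subset_ne.2 ⟨ht, h⟩)
      unfold Thin at hb
      omega
  refine class_gen (c := (symmDiff t {v}).card + 1) hJ hd hm (hJD ▸ hv)
    (by unfold Thin at hb; omega) (by omega) ?_ hsm
  intro G hG F hF
  rw [mem_cl] at hG hF
  have h1 := hE.diam G hG.1 F hF.1
  rw [card_symmDiff_split J, hG.2.1, hF.2.1] at h1
  omega

lemma class_cross (hJ : J.card = 4) (hd : 1 ≤ d) (hm : 2 ^ 20 * d ≤ Fintype.card V)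
    {D : Finset V} {x : V} (hJD : J = insert x D) (hx : x ∉ D)
    (hX : ∀ G ∈ 𝓔, ∀ F ∈ 𝓔', (symmDiff (symmDiff G F) D).card ≤ 2 * d + 1)
    {a : ℕ} (hb : Thin d (∅ : Finset V).card a)
    (hsm : (2 : ℝ) ^ 12 * 8 ^ (a + 1 - d) * (cl 𝓔 J ∅ a).card ≤ C4 V d) :
    ((cl 𝓔 J ∅ a).card : ℝ) ≤ (1 / 2) ^ (a + 1 - d + 8) * loss 𝓔' J D x d := by
  rw [card_empty] at hb
  have hda : d ≤ a := by unfold Thin at hb; omega
  refine class_gen (c := 4) hJ hd hm (mem_insert_self x D) (by omega) (by omega) ?_ hsm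
  intro G hG F hF
  rw [mem_cl] at hG hF
  refine le_trans ?_ (hX G hG.1 F hF.1)
  have hG1 : ∀ v ∈ J, v ∉ G := by
    intro v hv hvG
    have : v ∈ G ∩ J := mem_inter.2 ⟨hvG, hv⟩
    rw [hG.2.1] at this
    exact notMem_empty v this
  have hF1 : ∀ v ∈ J, (v ∈ F ↔ v = x) := by
    intro v hv
    have : v ∈ F ∩ J ↔ v ∈ ({x} : Finset V) := by rw [hF.2.1]
    rw [mem_inter, mem_singleton] at this
    tauto
  rw [← hJ, ← card_union_of_disjoint]
  · refine card_le_card fun v hv => ?_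
    rw [mem_union] at hv
    rcases hv with hv | hv
    · have h1 := hG1 v hv
      have h2 := hF1 v hv
      rw [hJD, mem_insert] at hv
      rw [mem_symmDiff, mem_symmDiff]
      rcases hv with rfl | hv
      · tauto
      · have h3 : v ≠ x := fun h => hx (h ▸ hv)
        tauto
    · rw [mem_symmDiff, mem_sdiff, mem_sdiff] at hv
      have h3 : v ∉ D := by
        intro h
        have : v ∈ J := by rw [hJD]; exact mem_insert_of_mem h
        tauto
      rw [mem_symmDiff, mem_symmDiff]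
      tauto
  · rw [disjoint_left]
    intro v hv hv'
    rw [mem_symmDiff, mem_sdiff, mem_sdiff] at hv'
    tauto

open Classical in
lemma thin_le (hJ : J.card = 4) (hd : 1 ≤ d) (hm : 2 ^ 20 * d ≤ Fintype.card V)
    {D : Finset V} {x : V} (hJD : J = insert x D) (hx : x ∉ D) (hE : Fam d 𝓔)
    (hX : ∀ G ∈ 𝓔, ∀ F ∈ 𝓔', (symmDiff (symmDiff G F) D).card ≤ 2 * d + 1)
    (hG : Good d 𝓔 1)
    (h1 : ((lev 𝓔 (d + 2)).card : ℝ) ≤ del * U d (Fintype.card V))
    (h0 : (((lev 𝓔 d).filter (fun F => Disjoint F J)).card : ℝ) ≤ tau * U d (Fintype.card V)) :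
    ((𝓔.filter (fun F => Thin d (F ∩ J).card (F \ J).card)).card : ℝ) ≤
      15 / 128 * loss 𝓔 J D x d + 1 / 128 * loss 𝓔' J D x d := by
  have e4 : (𝓔.filter (fun F => Thin d (F ∩ J).card (F \ J).card)).card =
      ∑ t ∈ J.powerset, ∑ a ∈ Ico (d - 1) (Fintype.card V + 1),
        (if Thin d t.card a then (cl 𝓔 J t a).card else 0) := by
    rw [card_eq_sum_card_fiberwise (f := fun F => F ∩ J) (t := J.powerset)]
    · refine sum_congr rfl fun t _ => ?_
      rw [card_eq_sum_card_fiberwise (f := fun F => (F \ J).card)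
        (t := Ico (d - 1) (Fintype.card V + 1))]
      · refine sum_congr rfl fun a _ => ?_
        by_cases hb : Thin d t.card a
        · rw [if_pos hb]
          congr 1
          ext F
          rw [mem_filter, mem_filter, mem_filter, mem_cl]
          constructor
          · rintro ⟨⟨⟨h2, h3⟩, h4⟩, h5⟩
            exact ⟨h2, h4, h5⟩
          · rintro ⟨h2, h3, h4⟩
            exact ⟨⟨⟨h2, by rw [h3, h4]; exact hb⟩, h3⟩, h4⟩
        · rw [if_neg hb, card_eq_zero, filter_eq_empty_iff]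
          intro F hF hFa
          rw [mem_filter, mem_filter] at hF
          rw [← hF.2, ← hFa] at hb
          exact hb hF.1.2
      · intro F hF
        rw [mem_coe, mem_filter, mem_filter] at hF
        rw [mem_coe, mem_Ico]
        refine ⟨?_, Nat.lt_succ_of_le (card_le_univ _)⟩
        change d - 1 ≤ (F \ J).card
        have h2 := hF.1.2
        unfold Thin at h2
        omega
    · intro F _
      rw [mem_coe, mem_powerset]
      exact inter_subset_right
  rw [e4]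
  push_cast
  have hempty : (∅ : Finset V) ∈ J.powerset := mem_powerset.2 (empty_subset J)
  rw [← add_sum_erase _ _ hempty]
  have hA : ∀ t ∈ J.powerset.erase ∅, ∑ a ∈ Ico (d - 1) (Fintype.card V + 1),
      (if Thin d t.card a then ((cl 𝓔 J t a).card : ℝ) else 0) ≤ 1 / 128 * loss 𝓔 J D x d := by
    intro t ht
    rw [mem_erase, mem_powerset] at ht
    calc ∑ a ∈ Ico (d - 1) (Fintype.card V + 1),
          (if Thin d t.card a then ((cl 𝓔 J t a).card : ℝ) else 0) ≤
        ∑ a ∈ Ico (d - 1) (Fintype.card V + 1), (1 / 2) ^ (a + 1 - d + 8) * loss 𝓔 J D x d := by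
          refine sum_le_sum fun a _ => ?_
          by_cases hb : Thin d t.card a
          · rw [if_pos hb]
            exact class_same hJ hd hm hJD hE ht.2 ht.1 hb (small hJ hd hm hE hG h1 h0 ht.2 hb)
          · rw [if_neg hb]
            exact mul_nonneg (by positivity) (loss_nonneg hJ D x)
      _ = (∑ a ∈ Ico (d - 1) (Fintype.card V + 1), ((1 : ℝ) / 2) ^ (a + 1 - d + 8)) *
          loss 𝓔 J D x d := by rw [sum_mul]
      _ ≤ 1 / 128 * loss 𝓔 J D x d :=
          mul_le_mul_of_nonneg_right (geom _ _ hd) (loss_nonneg hJ D x)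
  have hB : ∑ a ∈ Ico (d - 1) (Fintype.card V + 1),
      (if Thin d (∅ : Finset V).card a then ((cl 𝓔 J ∅ a).card : ℝ) else 0) ≤
        1 / 128 * loss 𝓔' J D x d := by
    calc ∑ a ∈ Ico (d - 1) (Fintype.card V + 1),
          (if Thin d (∅ : Finset V).card a then ((cl 𝓔 J ∅ a).card : ℝ) else 0) ≤
        ∑ a ∈ Ico (d - 1) (Fintype.card V + 1), (1 / 2) ^ (a + 1 - d + 8) * loss 𝓔' J D x d := by
          refine sum_le_sum fun a _ => ?_
          by_cases hb : Thin d (∅ : Finset V).card a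
          · rw [if_pos hb]
            exact class_cross hJ hd hm hJD hx hX hb
              (small hJ hd hm hE hG h1 h0 (empty_subset J) hb)
          · rw [if_neg hb]
            exact mul_nonneg (by positivity) (loss_nonneg hJ D x)
      _ = (∑ a ∈ Ico (d - 1) (Fintype.card V + 1), ((1 : ℝ) / 2) ^ (a + 1 - d + 8)) *
          loss 𝓔' J D x d := by rw [sum_mul]
      _ ≤ 1 / 128 * loss 𝓔' J D x d :=
          mul_le_mul_of_nonneg_right (geom _ _ hd) (loss_nonneg hJ D x)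
  have hC := sum_le_card_nsmul _ _ _ hA
  rw [card_erase_of_mem hempty, card_powerset, hJ, nsmul_eq_mul] at hC
  norm_num at hC hB ⊢
  linarith

/-- the unit of the classes with `d - 2` elements outside -/
noncomputable def K2 (V : Type) [Fintype V] (d : ℕ) : ℝ :=
  ((Fintype.card V - 3).choose (d - 1) : ℕ) - C4 V d

lemma c2_le (hJ : J.card = 4) (hd : 1 ≤ d) (hm : 2 ^ 20 * d ≤ Fintype.card V) (t : Finset V) :
    ((𝓔.filter (fun F => F ∩ J = t ∧ (F \ J).card + 2 = d)).card : ℝ) ≤ K2 V d := by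
  unfold K2 C4
  obtain ⟨n, hn⟩ : ∃ n, Fintype.card V = n + 4 := ⟨Fintype.card V - 4, by omega⟩
  rcases Nat.lt_or_ge d 2 with h | h
  · have h2 : d = 1 := by omega
    subst h2
    have h3 : 𝓔.filter (fun F => F ∩ J = t ∧ (F \ J).card + 2 = 1) = ∅ := by
      rw [filter_eq_empty_iff]
      intro F _ hF
      omega
    rw [h3]
    simp
  · obtain ⟨e, rfl⟩ : ∃ e, d = e + 2 := ⟨d - 2, by omega⟩
    have h3 : 𝓔.filter (fun F => F ∩ J = t ∧ (F \ J).card + 2 = e + 2) = cl 𝓔 J t e := by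
      ext F
      rw [mem_filter, mem_cl]
      simp only [Nat.add_right_cancel_iff]
    rw [h3]
    have h4 := card_cl_le (𝓔 := 𝓔) hJ t e
    rw [hn] at h4 ⊢
    rw [show n + 4 - 3 = n + 1 by omega, show n + 4 - 4 = n by omega,
      show e + 2 - 1 = e + 1 by omega, Nat.choose_succ_succ]
    rw [show n + 4 - 4 = n by omega] at h4
    push_cast
    have h5 : ((cl 𝓔 J t e).card : ℝ) ≤ (n.choose e : ℕ) := by exact_mod_cast h4
    linarith

open Classical in
lemma fam_le (hJ : J.card = 4) (hd : 1 ≤ d) (hm : 2 ^ 20 * d ≤ Fintype.card V)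
    {D : Finset V} {x : V} (hJD : J = insert x D) (hD : D.card = 3) (hx : x ∉ D)
    (hE : Fam d 𝓔) :
    ((3 * ov d 𝓔 ∅ + ∑ z ∈ D, ov d 𝓔 (D.erase z) : ℕ) : ℝ) ≤
      6 * C4 V d - loss 𝓔 J D x d + 6 * K2 V d +
        6 * ((𝓔.filter (fun F => Thin d (F ∩ J).card (F \ J).card)).card : ℝ) := by
  have e1 : 3 * ov d 𝓔 ∅ + ∑ z ∈ D, ov d 𝓔 (D.erase z) =
      ∑ F ∈ 𝓔, (3 * (if d < (symmDiff F ∅).card then 1 else 0) +
        ∑ z ∈ D, (if d < (symmDiff F (D.erase z)).card then 1 else 0)) := by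
    unfold ov
    simp only [card_filter]
    rw [sum_comm, mul_sum, ← sum_add_distrib]
  have e2 : 3 * ov d 𝓔 ∅ + ∑ z ∈ D, ov d 𝓔 (D.erase z) ≤
      3 * (cl 𝓔 J {x} (d - 1)).card + ∑ z ∈ D, (cl 𝓔 J {z} (d - 1)).card +
      ∑ z ∈ D, (𝓔.filter (fun F => F ∩ J = {x, z} ∧ (F \ J).card + 2 = d)).card +
      3 * (𝓔.filter (fun F => F ∩ J = J ∧ (F \ J).card + 2 = d)).card +
      6 * (𝓔.filter (fun F => Thin d (F ∩ J).card (F \ J).card)).card := by
    rw [e1]
    refine (sum_le_sum fun F hF => pointwise hD hx (hE.par F hF)).trans (le_of_eq ?_)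
    rw [← hJD]
    unfold cl
    simp only [card_filter]
    rw [sum_add_distrib, sum_add_distrib, sum_add_distrib, sum_add_distrib, ← mul_sum,
      ← mul_sum, ← mul_sum, sum_comm (s := 𝓔) (t := D), sum_comm (s := 𝓔) (t := D)]
  have e3 : ∑ z ∈ D, ((𝓔.filter (fun F => F ∩ J = {x, z} ∧ (F \ J).card + 2 = d)).card : ℝ) ≤
      3 * K2 V d := by
    refine (sum_le_card_nsmul D _ (K2 V d) fun z _ => c2_le hJ hd hm {x, z}).trans (le_of_eq ?_)
    rw [hD, nsmul_eq_mul]
    norm_num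
  have e4 := c2_le (𝓔 := 𝓔) hJ hd hm J
  have e5 : loss 𝓔 J D x d = 6 * C4 V d - (3 * ((cl 𝓔 J {x} (d - 1)).card : ℝ) +
      ∑ z ∈ D, ((cl 𝓔 J {z} (d - 1)).card : ℝ)) := by
    unfold loss
    rw [sum_sub_distrib, sum_const, hD, nsmul_eq_mul]
    push_cast
    ring
  have e6 : ((3 * ov d 𝓔 ∅ + ∑ z ∈ D, ov d 𝓔 (D.erase z) : ℕ) : ℝ) ≤
      3 * ((cl 𝓔 J {x} (d - 1)).card : ℝ) + ∑ z ∈ D, ((cl 𝓔 J {z} (d - 1)).card : ℝ) +
      ∑ z ∈ D, ((𝓔.filter (fun F => F ∩ J = {x, z} ∧ (F \ J).card + 2 = d)).card : ℝ) +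
      3 * ((𝓔.filter (fun F => F ∩ J = J ∧ (F \ J).card + 2 = d)).card : ℝ) +
      6 * ((𝓔.filter (fun F => Thin d (F ∩ J).card (F \ J).card)).card : ℝ) := by
    exact_mod_cast e2
  linarith

end main

theorem exactB : S_exactB := by
  classical
  intro d hd V _ _ hm 𝓐 𝓑 D x hC hD hx hGA hGB hA2 hB2 hA0 hB0
  have hJ : (insert x D).card = 4 := by rw [card_insert_of_notMem hx, hD]
  have hXA : ∀ G ∈ 𝓐, ∀ F ∈ 𝓑, (symmDiff (symmDiff G F) D).card ≤ 2 * d + 1 := hC.dist
  have hXB : ∀ G ∈ 𝓑, ∀ F ∈ 𝓐, (symmDiff (symmDiff G F) D).card ≤ 2 * d + 1 := by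
    intro G hG F hF
    rw [symmDiff_comm G F]
    exact hC.dist F hF G hG
  have tA := thin_le hJ hd hm rfl hx hC.fa hXA hGA hA2 hA0
  have tB := thin_le hJ hd hm rfl hx hC.fb hXB hGB hB2 hB0
  have fA := fam_le (J := insert x D) hJ hd hm rfl hD hx hC.fa
  have fB := fam_le (J := insert x D) hJ hd hm rfl hD hx hC.fb
  have lA := loss_nonneg (𝓔 := 𝓐) (d := d) hJ D x
  have lB := loss_nonneg (𝓔 := 𝓑) (d := d) hJ D x
  have hK : K2 V d = ((Fintype.card V - 3).choose (d - 1) : ℕ) - C4 V d := rfl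
  have hfin : ((3 * ov d 𝓐 ∅ + ∑ z ∈ D, ov d 𝓐 (D.erase z) : ℕ) : ℝ) +
      ((3 * ov d 𝓑 ∅ + ∑ z ∈ D, ov d 𝓑 (D.erase z) : ℕ) : ℝ) ≤
      12 * ((Fintype.card V - 3).choose (d - 1) : ℕ) := by
    rw [hK] at fA fB
    linarith
  exact_mod_cast hfin

end Pool.Agent.H13.Diam
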